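import Pool.Agent.Q252.SQ7

/-!
# Partitions into squares: the ordering of the residue classes of the number of parts mod 3

For `S = {j² : j ≥ 1}` and `m = 3` the permutations `u_n` are not eventually periodic.
-/

set_option autoImplicit false

namespace Pool.Agent.Results.MP_fabcd1_nt.SquaresNotPeriodic

/-- `p_S(a,m,n)`: the number of partitions of `n` with all parts in `S` whose number of parts is
congruent to `a` modulo `m` -/
noncomputable def partCount (S : Set ℕ) (a m n : ℕ) : ℕ :=
  Nat.card {p : n.Partition // (∀ i ∈ p.parts, i ∈ S) ∧ Multiset.card p.parts % m = a % m}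

/-- the set `{j² : j ≥ 1}` -/
def squares : Set ℕ := {s | ∃ j : ℕ, 1 ≤ j ∧ s = j ^ 2}

/-- `u` lists the indices `0, …, m-1` with `p_S(u 0,m,n) ≥ p_S(u 1,m,n) ≥ …`, equal values being
listed with the smaller index first -/
def IsListing (S : Set ℕ) (m n : ℕ) (u : Equiv.Perm (Fin m)) : Prop :=
  ∀ i j : Fin m, i < j →
    partCount S (u j) m n < partCount S (u i) m n ∨
      (partCount S (u i) m n = partCount S (u j) m n ∧ u i < u j)

/-- eventually periodic sequences -/
def EventuallyPeriodic {α : Type*} (u : ℕ → α) : Prop :=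
  ∃ N P : ℕ, 0 < P ∧ ∀ n, N ≤ n → u (n + P) = u n

/-! ### existence and uniqueness of the listing -/

/-- the key used for sorting -/
noncomputable def key (S : Set ℕ) (m n : ℕ) (i : Fin m) : ℕᵒᵈ ×ₗ Fin m :=
  toLex (OrderDual.toDual (partCount S i m n), i)

theorem key_lt (S : Set ℕ) (m n : ℕ) (i j : Fin m) : key S m n i < key S m n j ↔
    (partCount S j m n < partCount S i m n ∨ (partCount S i m n = partCount S j m n ∧ i < j)) := by
  unfold key
  rw [Prod.Lex.toLex_lt_toLex]
  simp

theorem isListing_iff (S : Set ℕ) (m n : ℕ) (u : Equiv.Perm (Fin m)) :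
    IsListing S m n u ↔ StrictMono (key S m n ∘ u) := by
  unfold IsListing StrictMono
  constructor
  · intro h i j hij
    exact (key_lt S m n (u i) (u j)).2 (h i j hij)
  · intro h i j hij
    exact (key_lt S m n (u i) (u j)).1 (h hij)

theorem key_inj (S : Set ℕ) (m n : ℕ) : Function.Injective (key S m n) := by
  intro i j h
  have := congrArg (fun x => (ofLex x).2) h
  exact this

theorem existsUnique_listing (S : Set ℕ) (m n : ℕ) : ∃! u : Equiv.Perm (Fin m), IsListing S m n u := by
  refine ⟨Tuple.sort (key S m n), ?_, ?_⟩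
  · change IsListing S m n (Tuple.sort (key S m n))
    rw [isListing_iff]
    exact (Tuple.monotone_sort (key S m n)).strictMono_of_injective
      ((key_inj S m n).comp (Equiv.injective _))
  · intro v hv
    change IsListing S m n v at hv
    rw [isListing_iff] at hv
    have h1 := (Tuple.monotone_sort (key S m n)).strictMono_of_injective
      ((key_inj S m n).comp (Equiv.injective _))
    have h2 : key S m n ∘ v = key S m n ∘ (Tuple.sort (key S m n)) := by
      apply (StrictMono.range_inj hv h1).1
      rw [Set.range_comp, Set.range_comp, (Equiv.surjective _).range_eq,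
        (Equiv.surjective _).range_eq]
    apply Equiv.ext
    intro i
    exact key_inj S m n (congrFun h2 i)

/-! ### the counts and the weighted count -/

open Q252.SQ Q261.PartGen

theorem squares_eq : squares = Set.range fsq := by
  ext s
  simp only [squares, Set.mem_ofPred_eq, Set.mem_range, fsq]
  constructor
  · rintro ⟨j, hj, rfl⟩
    exact ⟨j - 1, by rw [Nat.sub_add_cancel hj]⟩
  · rintro ⟨j, rfl⟩
    exact ⟨j + 1, by omega, rfl⟩

open Classical in
theorem count_eq (a n : ℕ) : (partCount squares a 3 n : ℝ) =
    ∑ p ∈ Finset.univ.filter (fun p : n.Partition => Ok (Set.range fsq) p),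
      (1 + 2 * (om ^ (2 * a + Multiset.card p.parts)).re) / 3 := by
  have h1 : partCount squares a 3 n = (Finset.univ.filter (fun p : n.Partition =>
      Ok (Set.range fsq) p ∧ Multiset.card p.parts % 3 = a % 3)).card := by
    unfold partCount
    rw [squares_eq, Nat.card_eq_fintype_card, Fintype.card_subtype]
    congr 1
    ext p
    simp only [Finset.mem_filter, Finset.mem_univ, true_and]
    rfl
  rw [h1, ← Finset.filter_filter, Finset.card_filter, Nat.cast_sum]
  apply Finset.sum_congr rfl
  intro p _
  rw [w_pow_re om_prim]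
  by_cases h : Multiset.card p.parts % 3 = a % 3
  · rw [if_pos h, if_pos (by omega)]
    norm_num
  · rw [if_neg h, if_neg (by omega)]
    norm_num

theorem diff_eq (a b n : ℕ) : (partCount squares a 3 n : ℝ) - partCount squares b 3 n =
    2 / 3 * ((om ^ (2 * a) - om ^ (2 * b)) * W (Set.range fsq) om n).re := by
  classical
  rw [count_eq, count_eq, ← Finset.sum_sub_distrib, W, Finset.mul_sum, Complex.re_sum,
    Finset.mul_sum]
  apply Finset.sum_congr rfl
  intro p _
  rw [sub_mul, ← pow_add, ← pow_add, Complex.sub_re]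
  ring

theorem lam_ne {a b : ℕ} (ha : a < 3) (hb : b < 3) (hab : a ≠ b) :
    om ^ (2 * a) - om ^ (2 * b) ≠ 0 := by
  intro h
  have h1 : om ^ (2 * a) = om ^ (2 * b) := sub_eq_zero.1 h
  have h3 := om_prim.pow_eq_one
  rw [pow_eq_pow_mod (2 * a) h3, pow_eq_pow_mod (2 * b) h3] at h1
  have h2 := om_prim.pow_inj (Nat.mod_lt _ (by norm_num)) (Nat.mod_lt _ (by norm_num)) h1
  omega

/-- every strict inequality occurs infinitely often in every arithmetic progression -/
theorem infinite_sign {P : ℕ} (hP : 0 < P) (r : ℕ) {a b : ℕ} (ha : a < 3) (hb : b < 3)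
    (hab : a ≠ b) :
    {n : ℕ | n % P = r % P ∧ partCount squares b 3 n < partCount squares a 3 n}.Infinite := by
  rw [Set.infinite_iff_exists_gt]
  intro N
  obtain ⟨n, hn, hmod, hpos⟩ := main P r hP _ (lam_ne ha hb hab) (N + 1)
  refine ⟨n, ⟨hmod, ?_⟩, by omega⟩
  have h1 := diff_eq a b n
  have h2 : (0 : ℝ) < (partCount squares a 3 n : ℝ) - partCount squares b 3 n := by
    rw [h1]; linarith
  have h3 : (partCount squares b 3 n : ℝ) < partCount squares a 3 n := by linarith
  exact_mod_cast h3

/-- **Main result.**  Let `S = {j² : j ≥ 1}` and `m = 3`.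
(1) The permutations `u_n` of the problem exist and are unique.
(2) The sequence `(u_n)` is not eventually periodic.
(3) For all `a ≠ b` in `{0,1,2}` and every arithmetic progression there are infinitely many `n` in
the progression with `p_S(a,3,n) > p_S(b,3,n)`. -/
theorem result :
    (∃! u : ℕ → Equiv.Perm (Fin 3), ∀ n, IsListing squares 3 n (u n)) ∧
    (∀ u : ℕ → Equiv.Perm (Fin 3), (∀ n, IsListing squares 3 n (u n)) →
      ¬ EventuallyPeriodic u) ∧
    (∀ P r a b : ℕ, 0 < P → a < 3 → b < 3 → a ≠ b →
      {n : ℕ | n % P = r % P ∧ partCount squares b 3 n < partCount squares a 3 n}.Infinite) := by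
  refine ⟨?_, ?_, fun P r a b hP ha hb hab => infinite_sign hP r ha hb hab⟩
  · choose u hu huniq using fun n => existsUnique_listing squares 3 n
    exact ⟨u, hu, fun v hv => funext fun n => huniq n (v n) (hv n)⟩
  · rintro u hu ⟨N, P, hP, hper⟩
    have hconst : ∀ q : ℕ, u (N + q * P) = u N := by
      intro q
      induction q with
      | zero => simp
      | succ q ih =>
        rw [← ih, add_mul, one_mul, ← add_assoc]
        exact hper _ (by omega)
    have hne : ((u N 1 : Fin 3) : ℕ) ≠ (u N 0 : Fin 3) := by
      intro h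
      have := (u N).injective (Fin.ext h)
      exact absurd this (by decide)
    have hinf := infinite_sign hP N (u N 1).isLt (u N 0).isLt hne
    obtain ⟨n, ⟨hmod, hlt⟩, hn⟩ := hinf.exists_gt N
    obtain ⟨q, hq⟩ : ∃ q, n = N + q * P := by
      have h1 : P ∣ n - N := (Nat.modEq_iff_dvd' hn.le).1 hmod.symm
      obtain ⟨q, hq⟩ := h1
      refine ⟨q, ?_⟩
      rw [mul_comm q P, ← hq]
      omega
    have h2 := hu n 0 1 (by decide)
    rw [hq, hconst q, ← hq] at h2
    rcases h2 with h2 | ⟨h2, _⟩
    · omega
    · omega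

end Pool.Agent.Results.MP_fabcd1_nt.SquaresNotPeriodic
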